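import Pool.Agent.H15.SC.Ms

/-!
Module GEP (MP_f2954d_ag, block B5): positivity properties for numerical classes (helper99).
-/

namespace Pool.Agent.H99.B5

open SC SCB

section

variable {K : Type} [Field K] [Algebra ℂ K] {N : ℕ} {w : Fin (N + 1) → K} {n : ℕ}
  {μ : MultilinearMap ℝ (fun _ : Fin n => DivR w) ℝ}

lemma gns_red (hREP : T_REP) (hSCL : T_SCL) (hIN : T_IN) (hμ : IsIntersectionForm μ)
    (H₀ : DivZ w) (s : Multiset (NS μ)) (hs : ∀ a ∈ s, a ∈ GNS μ H₀) :
    ∃ (D : Fin s.card → DivZ w) (c : ℝ), 0 < c ∧ (∀ i, VAmp H₀ (D i)) ∧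
      ∀ t : Multiset (DivR w), t.card + s.card = n →
        INS μ (t.map (NTsub μ).mkQ + s) = c * ofMulti μ (t + ms fun i => toR (D i)) := by
  obtain ⟨D, q, hq, hsq⟩ := hREP K N n w H₀ μ s hs
  refine ⟨D, ∏ i, (q i : ℝ), Finset.prod_pos fun i _ => by exact_mod_cast (hq i).2,
    fun i => (hq i).1, ?_⟩
  intro t ht
  have h1 := hSCL K N n w μ hμ (Fin s.card) Finset.univ (fun i => (q i : ℝ))
    (fun i => (NTsub μ).mkQ (toR (D i))) (t.map (NTsub μ).mkQ)
    (by rw [Multiset.card_map, Finset.card_univ, Fintype.card_fin]; exact ht)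
  rw [← ms_eq_mss, ← ms_eq_mss, ← hsq] at h1
  rw [h1]
  congr 1
  have h2 := (hIN K N n w μ hμ).1 (t + ms fun i => toR (D i))
    (by rw [Multiset.card_add, card_ms, Fintype.card_fin]; exact ht)
  rw [← h2, Multiset.map_add]
  congr 2
  unfold ms
  rw [Multiset.map_map]
  rfl

lemma lor_scale {M M' : Type} {q : M → M → ℝ} (hq : Lor q) {c : ℝ} (hc : 0 < c)
    (p : M' → M) : Lor (fun x y : M' => c * q (p x) (p y)) := by
  intro x y hx
  have h1 : 0 < q (p x) (p x) := by
    by_contra h
    push Not at h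
    have : c * q (p x) (p x) ≤ 0 := mul_nonpos_of_nonneg_of_nonpos hc.le h
    simp only at hx
    linarith
  have h2 := hq (p x) (p y) h1
  simp only
  have h3 : 0 < c ^ 2 := by positivity
  nlinarith [mul_le_mul_of_nonneg_left h2 h3.le]

end

/-- GEP -/
theorem gep (hREP : T_REP) (hSCL : T_SCL) (hIN : T_IN) (hMX : T_MX) (hMD : T_MD) (hPX : T_PX)
    (hMDD : T_MDD) (hLF : T_LF) (hLG : T_LG) (hXQ : T_XQ) : T_GEP := by
  classical
  intro K _ _ N n w i₀ H₀ μ hw hn hH hμ
  obtain ⟨-, -, -, hX4, -, hX6⟩ := hXQ K N n w hw i₀ H₀ hH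
  refine ⟨?_, ?_, ?_, ?_, ?_⟩
  · intro s hs hG
    obtain ⟨D, c, hc, hD, hI⟩ := gns_red hREP hSCL hIN hμ H₀ s hG
    choose T hT using fun i => (hX4 (D i)).1 (hD i)
    have h0 := hI 0 (by simpa using hs)
    rw [Multiset.map_zero, zero_add, zero_add] at h0
    rw [h0, hMX K N n w i₀ H₀ μ hw hn hH hμ (Fin s.card) D T (by simpa using hs) hT]
    have h1 := (hPX K N n w i₀ H₀ hw hH (Fin s.card) D T hT).1 (by simpa using hs)
    have h2 : (0 : ℝ) < (Idx T ℂ : ℝ) := by exact_mod_cast Nat.pos_of_ne_zero h1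
    exact mul_pos hc h2
  · intro v s hs hG
    obtain ⟨D, c, hc, hD, hI⟩ := gns_red hREP hSCL hIN hμ H₀ s hG
    choose T hT using fun i => (hX4 (D i)).1 (hD i)
    have h0 := hI {Finsupp.single v 1} (by rw [Multiset.card_singleton]; omega)
    rw [Multiset.map_singleton, Multiset.singleton_add, Multiset.singleton_add] at h0
    rw [h0, hMD K N n w i₀ H₀ μ hw hn hH hμ (Fin s.card) D T (by simpa using hs) hT v]
    have h1 := (hPX K N n w i₀ H₀ hw hH (Fin s.card) D T hT).2 (by simpa using hs) v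
    have h2 : (0 : ℝ) < (Idx (fun j => v.1.res (T j)) ℂ : ℝ) := by
      exact_mod_cast Nat.pos_of_ne_zero h1
    exact mul_pos hc h2
  · intro v v' hv s hs hG
    obtain ⟨D, c, hc, hD, hI⟩ := gns_red hREP hSCL hIN hμ H₀ s hG
    have h0 := hI (Finsupp.single v 1 ::ₘ {Finsupp.single v' 1})
      (by rw [Multiset.card_cons, Multiset.card_singleton]; omega)
    rw [Multiset.map_cons, Multiset.map_singleton, Multiset.cons_add, Multiset.singleton_add,
      Multiset.cons_add, Multiset.singleton_add] at h0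
    rw [h0]
    exact mul_nonneg hc.le (hMDD K N n w i₀ H₀ μ hw hH hμ (Fin s.card) D (by simpa using hs) hD
      v v' hv)
  · intro s hs hG
    obtain ⟨D, c, hc, hD, hI⟩ := gns_red hREP hSCL hIN hμ H₀ s hG
    have h := lor_scale (hLF K N n w i₀ H₀ μ hw hH hμ (Fin s.card) D (by simpa using hs) hD) hc
      (fun x : NS μ => (Quotient.out x : DivR w))
    have e : (fun x y : NS μ => INS μ (x ::ₘ y ::ₘ s)) = fun x y : NS μ =>
        c * ofMulti μ ((Quotient.out x : DivR w) ::ₘ (Quotient.out y : DivR w) ::ₘ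
          ms fun j => toR (D j)) := by
      funext x y
      have h0 := hI ((Quotient.out x : DivR w) ::ₘ {(Quotient.out y : DivR w)})
        (by rw [Multiset.card_cons, Multiset.card_singleton]; omega)
      rw [Multiset.map_cons, Multiset.map_singleton, Multiset.cons_add, Multiset.singleton_add,
        Multiset.cons_add, Multiset.singleton_add] at h0
      rw [← h0]
      have ex : (NTsub μ).mkQ (Quotient.out x) = x := Quotient.out_eq x
      have ey : (NTsub μ).mkQ (Quotient.out y) = y := Quotient.out_eq y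
      rw [ex, ey]
    rw [e]
    exact h
  · intro v s hs hG
    obtain ⟨D, c, hc, hD, hI⟩ := gns_red hREP hSCL hIN hμ H₀ s hG
    have h := lor_scale (hLG K N n w i₀ H₀ μ hw hH hμ (Fin s.card) D (by simpa using hs) hD v) hc
      (fun x : NS μ => (Quotient.out x : DivR w))
    have e : (fun x y : NS μ => INS μ ((NTsub μ).mkQ (Finsupp.single v 1) ::ₘ x ::ₘ y ::ₘ s)) =
        fun x y : NS μ =>
        c * ofMulti μ (Finsupp.single v 1 ::ₘ (Quotient.out x : DivR w) ::ₘ
          (Quotient.out y : DivR w) ::ₘ ms fun j => toR (D j)) := by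
      funext x y
      have h0 := hI (Finsupp.single v 1 ::ₘ (Quotient.out x : DivR w) ::ₘ
        {(Quotient.out y : DivR w)})
        (by rw [Multiset.card_cons, Multiset.card_cons, Multiset.card_singleton]; omega)
      rw [Multiset.map_cons, Multiset.map_cons, Multiset.map_singleton, Multiset.cons_add,
        Multiset.cons_add, Multiset.singleton_add,
        Multiset.cons_add, Multiset.cons_add, Multiset.singleton_add] at h0
      rw [← h0]
      have ex : (NTsub μ).mkQ (Quotient.out x) = x := Quotient.out_eq x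
      have ey : (NTsub μ).mkQ (Quotient.out y) = y := Quotient.out_eq y
      rw [ex, ey]
    rw [e]
    exact h

end Pool.Agent.H99.B5
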