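import Pool.Agent.H15.SC.Ms

/-!
Module IN (MP_f2954d_ag, block B5): intersection numbers of numerical classes (helper99).
-/

namespace Pool.Agent.H99.B5

open SC SCB

section

variable {K : Type} [Field K] [Algebra ℂ K] {N : ℕ} {w : Fin (N + 1) → K} {n : ℕ}
  {μ : MultilinearMap ℝ (fun _ : Fin n => DivR w) ℝ}

lemma ofMulti_trivial {t : DivR w} (ht : NumTrivial μ t) (s : Multiset (DivR w))
    (hs : s.card + 1 = n) : ofMulti μ (t ::ₘ s) = 0 := by
  unfold ofMulti
  rw [dif_pos (by simpa using hs)]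
  apply ht
  have hmem : t ∈ (t ::ₘ s).toList := by simp
  obtain ⟨k, hk⟩ := List.mem_iff_get.1 hmem
  exact ⟨k.cast (by simp [hs]), by simpa using hk⟩

lemma ofMulti_congr (hGL : T_GL) (hμ : IsIntersectionForm μ) {a b : DivR w}
    (hab : (NTsub μ).mkQ a = (NTsub μ).mkQ b) (s : Multiset (DivR w)) (hs : s.card + 1 = n) :
    ofMulti μ (a ::ₘ s) = ofMulti μ (b ::ₘ s) := by
  have h : a - b ∈ NTsub μ := by
    rw [Submodule.mkQ_apply, Submodule.mkQ_apply] at hab
    exact (Submodule.Quotient.eq _).1 hab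
  have h0 : ofMulti μ ((a - b) ::ₘ s) = 0 := ofMulti_trivial h s hs
  have h1 := ((hGL _ n μ hμ.1).2.1) (a - b) b s hs
  rw [sub_add_cancel, h0, zero_add] at h1
  exact h1

lemma mkQ_out (x : NS μ) : (NTsub μ).mkQ (Quotient.out x) = x := by
  rw [Submodule.mkQ_apply]
  exact Quotient.out_eq x

lemma ofMulti_out (hGL : T_GL) (hμ : IsIntersectionForm μ) (s : Multiset (DivR w)) :
    ∀ t : Multiset (DivR w), s.card + t.card = n →
    ofMulti μ (s.map (fun x => Quotient.out ((NTsub μ).mkQ x)) + t) = ofMulti μ (s + t) := by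
  induction s using Multiset.induction_on with
  | empty => intro t _; simp
  | cons a s ih =>
    intro t ht
    rw [Multiset.map_cons, Multiset.cons_add,
      ofMulti_congr hGL hμ (mkQ_out ((NTsub μ).mkQ a)) _ (by
        rw [Multiset.card_add, Multiset.card_map]; rw [Multiset.card_cons] at ht; omega),
      ← Multiset.add_cons, ih (a ::ₘ t) (by
        rw [Multiset.card_cons] at ht ⊢; omega), Multiset.add_cons, Multiset.cons_add]

lemma INS_map (hGL : T_GL) (hμ : IsIntersectionForm μ) (s : Multiset (DivR w))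
    (hs : s.card = n) : INS μ (s.map (NTsub μ).mkQ) = ofMulti μ s := by
  have h := ofMulti_out hGL hμ s 0 (by simpa using hs)
  rw [add_zero, add_zero] at h
  rw [← h, INS, Multiset.map_map]
  rfl

lemma INS_cons (hGL : T_GL) (hμ : IsIntersectionForm μ) (a : NS μ) (x : DivR w)
    (hx : (NTsub μ).mkQ x = a) (s : Multiset (NS μ)) (hs : s.card + 1 = n) :
    INS μ (a ::ₘ s) = ofMulti μ (x ::ₘ s.map Quotient.out) := by
  rw [INS, Multiset.map_cons]
  exact ofMulti_congr hGL hμ (by rw [mkQ_out, hx]) _ (by simpa using hs)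

end

/-- IN -/
theorem isn (hGL : T_GL) : T_IN := by
  classical
  intro K _ _ N n w μ hμ
  refine ⟨fun s hs => INS_map hGL hμ s hs, ?_, ?_, ?_⟩
  · intro a b s hs
    rw [INS_cons hGL hμ (a + b) (Quotient.out a + Quotient.out b)
      (by rw [map_add, mkQ_out, mkQ_out]) s hs]
    rw [((hGL _ n μ hμ.1).2.1) _ _ _ (by simpa using hs)]
    rw [INS, INS, Multiset.map_cons, Multiset.map_cons]
  · intro c a s hs
    rw [INS_cons hGL hμ (c • a) (c • Quotient.out a)
      (by rw [map_smul, mkQ_out]) s hs]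
    rw [((hGL _ n μ hμ.1).2.2) _ _ _ (by simpa using hs)]
    rw [INS, Multiset.map_cons]
  · intro x _ h
    have hD : NumTrivial μ (Quotient.out x) := by
      rintro E ⟨i, hi⟩
      have h1 := (hGL _ n μ hμ.1).1 (Fin n) (Equiv.refl _) E
      simp only [Equiv.refl_apply] at h1
      rw [← h1, ms_erase E i]
      have hc : (E i ::ₘ mss (Finset.univ.erase i) E).card = n := by
        rw [← ms_erase E i, card_ms, Fintype.card_fin]
      rw [← INS_map hGL hμ _ hc, Multiset.map_cons, hi, mkQ_out]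
      apply h
      rw [Multiset.card_cons] at hc
      rw [Multiset.card_map]
      exact hc
    rw [← mkQ_out x, Submodule.mkQ_apply]
    exact (Submodule.Quotient.mk_eq_zero _).2 hD

end Pool.Agent.H99.B5
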