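import Pool.Agent.H15.SC.Ms

/-!
Module MD (MP_f2954d_ag, block B5): intersection with a prime divisor (helper99).
-/

namespace Pool.Agent.H99.B5

open SC SCB

/-- MD -/
theorem md (hMX : T_MX) (hIV : T_IV) (hSPN : T_SPN) (hXQ : T_XQ) (hGL : T_GL) : T_MD := by
  classical
  intro K _ _ N n w i₀ H₀ μ hw hn hH hμ J _ D T hJ hT v
  obtain ⟨A, B, hA, hB, hAB⟩ := (hSPN K N n w i₀ H₀ hw hH).1 (Finsupp.single v 1)
  obtain ⟨-, -, -, hX4, -, hX6⟩ := hXQ K N n w hw i₀ H₀ hH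
  obtain ⟨TA, hTA⟩ := (hX4 A).1 hA
  obtain ⟨TB, hTB⟩ := (hX4 B).1 hB
  have e1 : (Finsupp.single v 1 : DivR w) = toR A + (-1 : ℝ) • toR B := by
    ext u
    have h := DFunLike.congr_fun hAB u
    rw [Finsupp.sub_apply] at h
    have h' : (((Finsupp.single v (1 : ℤ)) u : ℤ) : ℝ) = (A u : ℝ) - (B u : ℝ) := by
      rw [h]; push_cast; ring
    rw [Finsupp.add_apply, Finsupp.smul_apply]
    unfold toR
    rw [Finsupp.mapRange_apply, Finsupp.mapRange_apply]
    have h2 : (Finsupp.single v (1 : ℝ)) u = (((Finsupp.single v (1 : ℤ)) u : ℤ) : ℝ) := by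
      by_cases hu : u = v
      · subst hu; simp
      · rw [Finsupp.single_eq_of_ne (by tauto), Finsupp.single_eq_of_ne (by tauto)]; simp
    rw [h2, h', smul_eq_mul]; ring
  have hc : (ms fun j => toR (D j)).card + 1 = n := by rw [card_ms]; exact hJ
  rw [e1, (hGL _ n μ hμ.1).2.1 _ _ _ hc, (hGL _ n μ hμ.1).2.2 _ _ _ hc]
  have key : ∀ (E : DivZ w) (S : Sys K), Nice i₀ H₀ E S →
      ofMulti μ (toR E ::ₘ ms fun j => toR (D j)) =
        ((E.sum fun v z => z * (Idx (fun j => v.1.res (T j)) ℂ : ℤ) : ℤ) : ℝ) := by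
    intro E S hS
    have h1 := hMX K N n w i₀ H₀ μ hw hn hH hμ (Unit ⊕ J) (Sum.elim (fun _ => E) D)
      (Sum.elim (fun _ => S) T) (by rw [Fintype.card_sum, Fintype.card_unit]; omega) (by
        rintro (_ | j)
        · exact hS
        · exact hT j)
    rw [ms_elim1 (fun j => toR (D j)) (toR E) _ (fun _ => rfl) rfl] at h1
    have h2 := hIV K N n w hw J D T E S hJ (fun j => (hX6 _ _ (hT j)).1) (hX6 _ _ hS).1
    rw [h1, ← h2]
    push_cast
    rfl
  rw [key A TA hTA, key B TB hTB]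
  have h3 := Finsupp.sum_sub_index (f := A) (g := B)
    (h := fun (v : PDiv w) (z : ℤ) => z * (Idx (fun j => v.1.res (T j)) ℂ : ℤ))
    (fun a b₁ b₂ => by ring)
  rw [← hAB, Finsupp.sum_single_index (by ring)] at h3
  have h4 : ((1 * (Idx (fun j => v.1.res (T j)) ℂ : ℤ) : ℤ) : ℝ) = _ := congrArg (Int.cast) h3
  rw [Int.cast_sub] at h4
  rw [neg_one_mul, ← sub_eq_add_neg, ← h4]
  push_cast
  ring

end Pool.Agent.H99.B5
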